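import Pool.Agent.Q224.NAdic.Upper3

/-!
# The average `N`-adic complexity of finite sequences is `n / 2 + O(1)`

The definitions are in `Pool/Agent/Q224/NAdic/Defs.lean`:

* `IsValue N b f g`: the `N`-adic integer `α` of the infinite sequence `b` satisfies `g α = f`;
* `HasComplexity N b x`: `x = log_N max(|f|, |g|)` where `α = f / g` in lowest terms, `g > 0`;
* `finComplexity N n a`: the minimum of the `N`-adic complexity over all infinite extensions of the
  finite sequence `a` (the first part of `result` says that this infimum is a minimum);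
* `avgFin N n`: the average `E_n^fin` of `finComplexity N n a` over the `N ^ n` sequences `a`.
-/

set_option autoImplicit false

namespace Pool.Agent.Results.MP_68df70_lc.AverageComplexity

open Q224.NAdic

/-- For all `N ≥ 2` and all `n`, the average `N`-adic complexity of the sequences of length `n` is
`n / 2 + O(1)`, with an absolute implied constant; more precisely it is at least
`n / 2 - 4 / log N` and at most `n / 2 + 1 / 2 + 90 / log N`. -/
theorem result (N : ℕ) (hN : 2 ≤ N) (n : ℕ) :
    (∀ a : Fin n → Fin N,
      IsLeast {x : ℝ | ∃ b : ℕ → Fin N, (∀ i : Fin n, b i = a i) ∧ HasComplexity N b x}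
        (finComplexity N n a)) ∧
    (n : ℝ) / 2 - 4 / Real.log N ≤ avgFin N n ∧
    avgFin N n ≤ (n : ℝ) / 2 + 1 / 2 + 90 / Real.log N := by
  refine ⟨fun a => isLeast_finComplexity hN a, ?_⟩
  have hN1 : (1 : ℝ) < N := by exact_mod_cast (by omega : 1 < N)
  have hlogN : 0 < Real.log N := Real.log_pos hN1
  have hq : (0 : ℝ) < (N : ℝ) ^ n := by positivity
  have e : avgFin N n = (∑ a : Fin n → Fin N, Real.log (M a)) / ((N : ℝ) ^ n * Real.log N) := by
    rw [avgFin, Finset.sum_congr rfl fun a _ => finComplexity_eq hN a]
    simp only [Real.logb]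
    rw [← Finset.sum_div, div_div, mul_comm (Real.log N)]
  have h2 : Real.log 2 ≤ 1 := by
    have := Real.log_two_lt_d9
    linarith
  have h6 : Real.log 6 ≤ 2 := by
    have h := Real.add_one_le_exp (1 : ℝ)
    have h' := Real.exp_one_gt_d9
    rw [Real.log_le_iff_le_exp (by norm_num)]
    have e2 : Real.exp 2 = Real.exp 1 * Real.exp 1 := by rw [← Real.exp_add]; norm_num
    rw [e2]
    nlinarith
  rw [e]
  constructor
  · rw [le_div_iff₀ (by positivity)]
    refine le_trans ?_ (sum_log_M_ge hN n)
    have : ((n : ℝ) / 2 - 4 / Real.log N) * ((N : ℝ) ^ n * Real.log N) =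
        (N : ℝ) ^ n * (n * Real.log N / 2 - 4) := by
      field_simp
    rw [this]
    apply mul_le_mul_of_nonneg_left _ hq.le
    linarith
  · rw [div_le_iff₀ (by positivity)]
    refine (sum_log_M_le hN n).trans ?_
    have : ((n : ℝ) / 2 + 1 / 2 + 90 / Real.log N) * ((N : ℝ) ^ n * Real.log N) =
        (N : ℝ) ^ n * (n * Real.log N / 2 + Real.log N / 2 + 90) := by
      field_simp
    rw [this]
    apply mul_le_mul_of_nonneg_left _ hq.le
    linarith

end Pool.Agent.Results.MP_68df70_lc.AverageComplexity
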